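import Mathlib

set_option autoImplicit false

open Set Filter Metric MeasureTheory

namespace Pool.Agent.TH913.J2487

theorem vol_ball (c : ℂ) {r : ℝ} (hr : 0 ≤ r) : volume (ball c r) = ENNReal.ofReal (Real.pi * r ^ 2) := by
  rw [Complex.volume_ball, ENNReal.ofReal_mul Real.pi_pos.le, ENNReal.ofReal_pow hr, mul_comm]
  congr 1
  rw [← NNReal.coe_real_pi, ENNReal.ofReal_coe_nnreal]

theorem meas_fun (c : ℂ) (a : ℝ) : Measurable (fun w : ℂ => 1 / ‖w - c‖ ^ a) := by
  fun_prop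

theorem cake {A : Set ℂ} (c : ℂ) (a : ℝ) :
    ∫⁻ w in A, ENNReal.ofReal (1 / ‖w - c‖ ^ a) =
      ∫⁻ t in Ioi (0 : ℝ), volume.restrict A {w : ℂ | t < 1 / ‖w - c‖ ^ a} := by
  apply lintegral_eq_lintegral_meas_lt
  · exact Eventually.of_forall fun w => by positivity
  · exact (meas_fun c a).aemeasurable

theorem level_sub (c : ℂ) {a t : ℝ} (ha : 0 < a) (ht : 0 < t) :
    {w : ℂ | t < 1 / ‖w - c‖ ^ a} ⊆ ball c (t ^ (-(1 / a))) := by
  intro w hw
  have hw' : t < 1 / ‖w - c‖ ^ a := hw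
  have h0 : 0 < ‖w - c‖ := by
    by_contra h
    have h2 : ‖w - c‖ = 0 := le_antisymm (not_lt.mp h) (norm_nonneg _)
    rw [h2, Real.zero_rpow ha.ne'] at hw'
    simp at hw'
    linarith
  have h1 : 0 < ‖w - c‖ ^ a := Real.rpow_pos_of_pos h0 a
  rw [mem_ball, dist_eq_norm]
  have h3 : ‖w - c‖ ^ a < t⁻¹ := by
    rw [lt_inv_comm₀ h1 ht, ← one_div]
    exact hw'
  have h4 : (‖w - c‖ ^ a) ^ (1 / a) < (t⁻¹) ^ (1 / a) :=
    Real.rpow_lt_rpow h1.le h3 (by positivity)
  rw [← Real.rpow_mul h0.le, mul_one_div_cancel ha.ne', Real.rpow_one,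
    Real.inv_rpow ht.le, ← Real.rpow_neg ht.le] at h4
  exact h4

theorem level_meas (c : ℂ) (a t : ℝ) : MeasurableSet {w : ℂ | t < 1 / ‖w - c‖ ^ a} :=
  measurableSet_lt measurable_const (meas_fun c a)

theorem tail_int {a T P : ℝ} (ha : 0 < a) (ha2 : a < 2) (hT : 0 < T) (hP : 0 ≤ P) :
    ∫⁻ t in Ioi T, ENNReal.ofReal (P * t ^ (-(2 / a))) =
      ENNReal.ofReal (P * (T ^ (1 - 2 / a) * (a / (2 - a)))) := by
  have h2a : -(2 / a) < -1 := by
    rw [neg_lt_neg_iff, lt_div_iff₀ ha]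
    linarith
  have hint : IntegrableOn (fun t : ℝ => P * t ^ (-(2 / a))) (Ioi T) :=
    (integrableOn_Ioi_rpow_of_lt h2a hT).const_mul P
  rw [← ofReal_integral_eq_lintegral_ofReal hint, integral_const_mul, integral_Ioi_rpow_of_lt h2a hT]
  · congr 2
    rw [show -(2 / a) + 1 = 1 - 2 / a by ring]
    have h3 : (1 - 2 / a) = -((2 - a) / a) := by
      field_simp
      ring
    have h4 : (2 - a) ≠ 0 := by linarith
    rw [show -T ^ (1 - 2 / a) / (1 - 2 / a) = T ^ (1 - 2 / a) * (1 / (-(1 - 2 / a))) by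
      rw [mul_one_div, div_neg, neg_div]]
    congr 1
    rw [h3, neg_neg, one_div_div]
  · rw [EventuallyLE, ae_restrict_iff' measurableSet_Ioi]
    exact Eventually.of_forall fun t ht => mul_nonneg hP (Real.rpow_nonneg (hT.trans ht).le _)

theorem cake_bound {a : ℝ} (ha : 0 < a) (ha2 : a < 2) (c : ℂ) (A : Set ℂ) {M P T : ℝ} (hT : 0 < T)
    (hM : 0 ≤ M) (hP : 0 ≤ P) (hvA : volume A ≤ ENNReal.ofReal M)
    (hvP : ∀ t, T < t → volume (A ∩ ball c (t ^ (-(1 / a)))) ≤ ENNReal.ofReal (P * t ^ (-(2 / a)))) :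
    ∫⁻ w in A, ENNReal.ofReal (1 / ‖w - c‖ ^ a) ≤
      ENNReal.ofReal (M * T + P * (T ^ (1 - 2 / a) * (a / (2 - a)))) := by
  have h2a : 0 < 2 - a := by linarith
  rw [cake]
  have hg : ∀ t, volume.restrict A {w : ℂ | t < 1 / ‖w - c‖ ^ a} =
      volume ({w : ℂ | t < 1 / ‖w - c‖ ^ a} ∩ A) := fun t =>
    Measure.restrict_apply (level_meas c a t)
  rw [← Ioc_union_Ioi_eq_Ioi hT.le]
  refine (lintegral_union_le _ _ _).trans ?_
  rw [ENNReal.ofReal_add (by positivity) (by positivity), ← tail_int ha ha2 hT hP]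
  refine add_le_add ?_ ?_
  · calc ∫⁻ t in Ioc 0 T, volume.restrict A {w : ℂ | t < 1 / ‖w - c‖ ^ a}
        ≤ ∫⁻ _t in Ioc 0 T, ENNReal.ofReal M := by
          apply setLIntegral_mono' measurableSet_Ioc
          intro t _
          rw [hg]
          exact (measure_mono inter_subset_right).trans hvA
      _ = ENNReal.ofReal (M * T) := by
          rw [setLIntegral_const, Real.volume_Ioc, sub_zero, ← ENNReal.ofReal_mul hM]
  · apply setLIntegral_mono' measurableSet_Ioi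
    intro t ht
    have ht0 : 0 < t := hT.trans ht
    rw [hg]
    refine (measure_mono ?_).trans (hvP t ht)
    rw [inter_comm]
    exact inter_subset_inter_right _ (level_sub c ha ht0)

theorem area_rpow (a : ℝ) (ha : 0 < a) (ha2 : a < 2) : ∃ C : ℝ, 0 < C ∧
    ∀ (x : ℂ) (S : Set ℂ) (V : ℝ), MeasurableSet S → 0 ≤ V → volume S ≤ ENNReal.ofReal V →
      ∫⁻ w in S, ENNReal.ofReal (1 / ‖w - x‖ ^ a) ≤ ENNReal.ofReal (C * V ^ (1 - a / 2)) := by
  have hpi := Real.pi_pos
  have h2a : 0 < 2 - a := by linarith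
  refine ⟨1 + Real.pi * (a / (2 - a)), by positivity, ?_⟩
  intro x S V _ hV hS
  rcases hV.eq_or_lt with hV0 | hV0
  · rw [← hV0, ENNReal.ofReal_zero] at hS
    rw [setLIntegral_measure_zero _ _ (le_antisymm hS zero_le)]
    exact zero_le
  have h := cake_bound ha ha2 x S (M := V) (P := Real.pi) (T := V ^ (-(a / 2)))
    (Real.rpow_pos_of_pos hV0 _) hV hpi.le hS (by
      intro t ht
      have ht0 : 0 < t := (Real.rpow_pos_of_pos hV0 _).trans ht
      refine (measure_mono inter_subset_right).trans ?_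
      rw [vol_ball x (Real.rpow_nonneg ht0.le _)]
      apply le_of_eq
      congr 2
      rw [← Real.rpow_natCast, ← Real.rpow_mul ht0.le]
      congr 1
      push_cast
      ring)
  refine h.trans (le_of_eq ?_)
  congr 1
  have e1 : V * V ^ (-(a / 2)) = V ^ (1 - a / 2) := by
    conv_lhs => rw [← Real.rpow_one V]
    rw [← Real.rpow_mul hV, ← Real.rpow_add hV0]
    congr 1
    ring
  have e2 : (V ^ (-(a / 2))) ^ (1 - 2 / a) = V ^ (1 - a / 2) := by
    rw [← Real.rpow_mul hV]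
    congr 1
    field_simp
    ring
  rw [e1, e2]
  ring

theorem near_crit (a C₂ s₀ : ℝ) (ha : 0 < a) (ha2 : a < 2) (hC₂ : 0 ≤ C₂) (hs₀ : 0 < s₀) :
    ∃ C : ℝ, 0 < C ∧
    ∀ (c v : ℂ) (η V δ : ℝ) (S : Set ℂ), MeasurableSet S → 0 < η → ‖c - v‖ ≤ η → 0 ≤ V → 0 < δ →
      η ≤ s₀ / 8 → δ ≤ s₀ / 8 →
      (∀ s : ℝ, η ≤ s → s ≤ s₀ → volume (S ∩ ball v s) ≤ ENNReal.ofReal (C₂ * s ^ 2 * V)) →
      ∫⁻ w in S ∩ ball c δ, ENNReal.ofReal (1 / ‖w - c‖ ^ a) ≤
        ENNReal.ofReal (C * (δ ^ (2 - a) * V + (η ^ 2 * V) ^ (1 - a / 2))) := by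
  have h2a : 0 < 2 - a := by linarith
  obtain ⟨C₁, hC₁, hA⟩ := area_rpow a ha ha2
  refine ⟨1 + 4 * C₂ * (1 + a / (2 - a)) + C₁ * (4 * C₂) ^ (1 - a / 2), by positivity, ?_⟩
  intro c v η V δ S hS hη hcv hV hδ hηs hδs hvol
  have hdc : dist c v ≤ η := by rw [dist_eq_norm]; exact hcv
  have hvolr : ∀ r, η ≤ r → r ≤ s₀ / 2 → volume (S ∩ ball c r) ≤ ENNReal.ofReal (4 * C₂ * V * r ^ 2) := by
    intro r hr hrs
    have h1 : S ∩ ball c r ⊆ S ∩ ball v (2 * r) := by
      apply inter_subset_inter_right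
      apply ball_subset_ball'
      linarith
    refine (measure_mono h1).trans ((hvol (2 * r) (by linarith) (by linarith)).trans (le_of_eq ?_))
    congr 1
    ring
  -- near part
  have hnear : ∫⁻ w in S ∩ ball c η, ENNReal.ofReal (1 / ‖w - c‖ ^ a) ≤
      ENNReal.ofReal (C₁ * (4 * C₂ * V * η ^ 2) ^ (1 - a / 2)) :=
    hA c (S ∩ ball c η) (4 * C₂ * V * η ^ 2) (hS.inter measurableSet_ball) (by positivity)
      (hvolr η le_rfl (by linarith))
  -- far part
  have hfar : ∫⁻ w in (S ∩ ball c δ) \ ball c η, ENNReal.ofReal (1 / ‖w - c‖ ^ a) ≤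
      ENNReal.ofReal (4 * C₂ * V * (1 + a / (2 - a)) * δ ^ (2 - a)) := by
    rcases le_or_gt δ η with hδη | hδη
    · have : (S ∩ ball c δ) \ ball c η = ∅ := by
        rw [sdiff_eq_empty]
        exact inter_subset_right.trans (ball_subset_ball hδη)
      rw [this]
      simp
    have hT : 0 < δ ^ (-a) := Real.rpow_pos_of_pos hδ _
    have h := cake_bound ha ha2 c ((S ∩ ball c δ) \ ball c η) (M := 4 * C₂ * V * δ ^ 2)
      (P := 4 * C₂ * V) (T := δ ^ (-a)) hT (by positivity) (by positivity)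
      ((measure_mono sdiff_subset).trans (hvolr δ hδη.le (by linarith))) (by
        intro t ht
        have ht0 : 0 < t := hT.trans ht
        set r := t ^ (-(1 / a)) with hr
        have hr0 : 0 < r := Real.rpow_pos_of_pos ht0 _
        have hrδ : r ≤ δ := by
          have h1 : t ^ (-(1 / a)) ≤ (δ ^ (-a)) ^ (-(1 / a)) :=
            Real.rpow_le_rpow_of_nonpos hT ht.le (by
              have : 0 < 1 / a := by positivity
              linarith)
          rw [← Real.rpow_mul hδ.le] at h1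
          have h2 : -a * -(1 / a) = 1 := by field_simp
          rw [h2, Real.rpow_one] at h1
          exact h1
        have hr2 : r ^ 2 = t ^ (-(2 / a)) := by
          rw [hr, ← Real.rpow_natCast, ← Real.rpow_mul ht0.le]
          congr 1
          push_cast
          ring
        rcases le_or_gt r η with hrη | hrη
        · have : ((S ∩ ball c δ) \ ball c η) ∩ ball c r = ∅ := by
            rw [eq_empty_iff_forall_notMem]
            rintro w ⟨⟨_, hw1⟩, hw2⟩
            exact hw1 (ball_subset_ball hrη hw2)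
          rw [this, measure_empty]
          exact zero_le
        · rw [← hr2]
          refine (measure_mono ?_).trans (hvolr r hrη.le (by linarith))
          rintro w ⟨⟨⟨hw, _⟩, _⟩, hw2⟩
          exact ⟨hw, hw2⟩)
    refine h.trans (le_of_eq ?_)
    congr 1
    have e1 : δ ^ 2 * δ ^ (-a) = δ ^ (2 - a) := by
      rw [← Real.rpow_natCast, ← Real.rpow_add hδ]
      congr 1
    have e2 : (δ ^ (-a)) ^ (1 - 2 / a) = δ ^ (2 - a) := by
      rw [← Real.rpow_mul hδ.le]
      congr 1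
      field_simp
      ring
    rw [e2, show 4 * C₂ * V * δ ^ 2 * δ ^ (-a) = 4 * C₂ * V * (δ ^ 2 * δ ^ (-a)) by ring, e1]
    ring
  have hsub : S ∩ ball c δ ⊆ (S ∩ ball c η) ∪ ((S ∩ ball c δ) \ ball c η) := by
    intro w hw
    by_cases h : w ∈ ball c η
    · exact Or.inl ⟨hw.1, h⟩
    · exact Or.inr ⟨hw, h⟩
  refine (lintegral_mono_set hsub).trans ((lintegral_union_le _ _ _).trans
    ((add_le_add hnear hfar).trans ?_))
  rw [← ENNReal.ofReal_add (by positivity) (by positivity)]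
  apply ENNReal.ofReal_le_ofReal
  have e3 : (4 * C₂ * V * η ^ 2) ^ (1 - a / 2) = (4 * C₂) ^ (1 - a / 2) * (η ^ 2 * V) ^ (1 - a / 2) := by
    rw [← Real.mul_rpow (by positivity) (by positivity)]
    congr 1
    ring
  rw [e3]
  have p1 : 0 ≤ δ ^ (2 - a) * V := by positivity
  have p2 : 0 ≤ (η ^ 2 * V) ^ (1 - a / 2) := by positivity
  have p3 : 0 ≤ (4 * C₂) ^ (1 - a / 2) := by positivity
  have p4 : 0 ≤ a / (2 - a) := by positivity
  generalize δ ^ (2 - a) = D at *
  generalize (η ^ 2 * V) ^ (1 - a / 2) = E at *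
  generalize (4 * C₂) ^ (1 - a / 2) = F at *
  generalize a / (2 - a) = G at *
  have q1 : 0 ≤ C₁ * F * (D * V) := by positivity
  have q2 : 0 ≤ 4 * C₂ * (1 + G) * E := by positivity
  nlinarith [q1, q2, p1, p2]

end Pool.Agent.TH913.J2487
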